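import Mathlib

/-!
# Project SO (MP_9abc65_al): sum of `o(x)/phi(o(x))` over a finite SOLVABLE group (helper48)

THEOREM. For a finite solvable group `G`, a cyclic group `C` of the same order and weights `t p ≥ 1`: `∑ over G of ∏ over the primes p dividing the order of t p ≤` the same sum over `C`.

RULES. Row `XXX`: file `Pool/Agent/<seat>/SO/XXX.lean`, `import Pool.Agent.helper48.SO.Spec`, `namespace SOL`. No straight double quotes, no convert / congr!, no sorry.
-/

set_option autoImplicit false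

namespace SOL

open Finset

/-- weight of an element -/
noncomputable def wt {G : Type*} [Group G] (t : ℕ → ℝ) (g : G) : ℝ := ∏ p ∈ (orderOf g).primeFactors, t p

/-- the value for abelian groups, for a finite set `S` of primes -/
noncomputable def Fi (S : Finset ℕ) (n : ℕ) (t : ℕ → ℝ) : ℝ := ∏ p ∈ S, (1 + ((p : ℝ) ^ (n.factorization p) - 1) * t p)

/-- the new weights -/
noncomputable def nw (t : ℕ → ℝ) (p q : ℕ) : ℕ → ℝ := Function.update t p (q * t p / ((q - 1) * t p + 1))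

open Classical in
/-- **FIB** (medium, critical). One coset `x` of a normal subgroup `N` with `a ^ p = 1` on `N`, `q = #N`. `o(x) ∣ o(g) ∣ o(x) p` for `g` in `x`. If `p ∣ o(x)`: all prime factors are those of `o(x)`; both sides are `q t_p P`. If `p ∤ o(x) = m`: `wt t g ≤ t_p P` for all `g` in the coset and
`wt t g₀ = P` for `g₀ = g ^ (p ^ φ(m))` (`p ^ φ(m) ≡ 1` modulo `m`, and `g₀ ^ m = 1`). Second part: `G` commutative: then `g₀` is the only element of the coset with order prime to `p` (`g₀⁻¹ g ∈ N` has order dividing `p` and prime to `p`), equality. -/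
def FIB_stmt : Prop := ∀ (G : Type) [Group G] [Fintype G] (N : Subgroup G) [N.Normal] (p : ℕ) (t : ℕ → ℝ) (x : G ⧸ N), p.Prime → (∀ a ∈ N, a ^ p = 1) → (∀ ℓ, 1 ≤ t ℓ) →
  (∑ g : G with (QuotientGroup.mk g : G ⧸ N) = x, wt t g ≤ ((Nat.card N - 1) * t p + 1) * wt (nw t p (Nat.card N)) x) ∧
  ((∀ a b : G, a * b = b * a) → ∑ g : G with (QuotientGroup.mk g : G ⧸ N) = x, wt t g = ((Nat.card N - 1) * t p + 1) * wt (nw t p (Nat.card N)) x)

/-- **NOR** (short-medium). A nontrivial solvable group has a nontrivial normal subgroup with `a ^ p = 1`: the last nontrivial member `A` of the derived series is abelian (`Nat.find`), `p ∣ #A`, `N = {a ∈ A | a ^ p = 1}` (Cauchy: nontrivial). -/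
def NOR_stmt : Prop := ∀ (G : Type) [Group G] [Finite G] [Nontrivial G] [Group.IsSolvable G], ∃ (p : ℕ) (N : Subgroup G), p.Prime ∧ N.Normal ∧ N ≠ ⊥ ∧ ∀ a ∈ N, a ^ p = 1

/-- **FIR** (short). Recursion: `q = p ^ k`; the factor of `p`: `((q - 1) t + 1) (1 + (p ^ v' - 1) q t / ((q - 1) t + 1)) = 1 + (p ^ (k + v') - 1) t`; the other factors are the same. -/
def FIR_stmt : Prop := ∀ (S : Finset ℕ) (n p k : ℕ) (t : ℕ → ℝ), p.Prime → p ∈ S → (∀ ℓ ∈ S, ℓ.Prime) → 0 < n → (∀ ℓ, 1 ≤ t ℓ) →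
  ((((p ^ k : ℕ) : ℝ) - 1) * t p + 1) * Fi S n (nw t p (p ^ k)) = Fi S (p ^ k * n) t

/-- **GEN**. uses: `FIB_stmt NOR_stmt FIR_stmt`. Strong induction on the order. -/
def GEN_stmt : Prop := ∀ (n : ℕ) (G : Type) [Group G] [Fintype G] [Group.IsSolvable G] (S : Finset ℕ) (t : ℕ → ℝ), Nat.card G = n → (∀ ℓ ∈ S, ℓ.Prime) → n.primeFactors ⊆ S → (∀ ℓ, 1 ≤ t ℓ) →
  (∑ g : G, wt t g ≤ Fi S n t) ∧ ((∀ a b : G, a * b = b * a) → ∑ g : G, wt t g = Fi S n t)

end SOL
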